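import Mathlib

/-!
MP_68dc86_gt, Q1 (negated form): a compact subset of `ℝ³` whose Vietoris–Rips shadow at scale `1` is
not an ANR.
-/

set_option autoImplicit false

namespace Pool.Agent.Results.MP_68dc86_gt.ShadowNotANR

open Set Metric Filter Topology

universe u

/-- `Y` is an absolute neighbourhood retract: it is metrizable, and whenever it is embedded as a
closed subset of a metrizable space `Z`, some neighbourhood of the image retracts onto the image. -/
def IsANR (Y : Type u) [TopologicalSpace Y] : Prop :=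
  TopologicalSpace.MetrizableSpace Y ∧
    ∀ (Z : Type u) [TopologicalSpace Z] [TopologicalSpace.MetrizableSpace Z] (e : Y → Z),
      IsClosedEmbedding e → ∃ U : Set Z, U ∈ 𝓝ˢ (range e) ∧
        ∃ r : U → Y, Continuous r ∧ ∀ (y : Y) (h : e y ∈ U), r ⟨e y, h⟩ = y

/-- The simplices of the Vietoris–Rips complex `R_β(M)`: nonempty finite subsets of `M` of diameter
less than `β`. -/
def ripsSimplices {N : ℕ} (M : Set (EuclideanSpace ℝ (Fin N))) (β : ℝ) :
    Set (Set (EuclideanSpace ℝ (Fin N))) :=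
  {σ | σ.Nonempty ∧ σ.Finite ∧ σ ⊆ M ∧ Metric.diam σ < β}

/-- The shadow of the Vietoris–Rips complex: the union of the convex hulls of its simplices. -/
def shadow {N : ℕ} (M : Set (EuclideanSpace ℝ (Fin N))) (β : ℝ) :
    Set (EuclideanSpace ℝ (Fin N)) :=
  ⋃ σ ∈ ripsSimplices M β, convexHull ℝ σ

/-! ### The example -/

abbrev E : Type := EuclideanSpace ℝ (Fin 3)

/-- The heights. -/
noncomputable def y (i : ℕ) : ℝ := (1 / 4) * (1 / 2) ^ i

/-- The set of heights, with the limit `0`. -/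
def T : Set ℝ := insert 0 (range y)

noncomputable def pa (t : ℝ) : E := !₂[-(1 / 2) + t ^ 2 / 32, t, 0]
noncomputable def pb (t : ℝ) : E := !₂[1 / 2 - t ^ 2 / 32, t, 0]
noncomputable def pc : E := !₂[0, 0, 7 / 8]
noncomputable def pd : E := !₂[0, 0, -(1 / 10)]

/-- The compact set. -/
def M : Set E := (pa '' T ∪ pb '' T) ∪ {pc, pd}

theorem y_pos (i : ℕ) : 0 < y i := by
  unfold y
  positivity

theorem y_le (i : ℕ) : y i ≤ 1 / 4 := by
  unfold y
  have : (1 / 2 : ℝ) ^ i ≤ 1 := pow_le_one₀ (by norm_num) (by norm_num)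
  linarith

theorem y_tendsto : Tendsto y atTop (𝓝 0) := by
  have : Tendsto (fun i : ℕ => (1 / 4 : ℝ) * (1 / 2) ^ i) atTop (𝓝 (1 / 4 * 0)) :=
    (tendsto_pow_atTop_nhds_zero_of_lt_one (by norm_num) (by norm_num)).const_mul _
  rw [mul_zero] at this
  exact this

theorem T_compact : IsCompact T := y_tendsto.isCompact_insert_range

theorem T_bd {t : ℝ} (h : t ∈ T) : 0 ≤ t ∧ t ≤ 1 / 4 := by
  rcases h with rfl | ⟨i, rfl⟩
  · norm_num
  · exact ⟨(y_pos i).le, y_le i⟩

theorem y_half {i j : ℕ} (h : i < j) : y j ≤ y i / 2 := by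
  unfold y
  obtain ⟨k, rfl⟩ := Nat.exists_eq_add_of_lt h
  have h1 : (1 / 2 : ℝ) ^ k ≤ 1 := pow_le_one₀ (by norm_num) (by norm_num)
  have h2 : (0 : ℝ) ≤ (1 / 2) ^ i := by positivity
  rw [pow_succ, pow_add]
  nlinarith

theorem T_sep {t u : ℝ} (ht : t ∈ T) (hu : u ∈ T) (h : t ≠ u) : t ≤ u / 2 ∨ u ≤ t / 2 := by
  rcases ht with rfl | ⟨i, rfl⟩ <;> rcases hu with rfl | ⟨j, rfl⟩
  · exact absurd rfl h
  · left
    have := y_pos j
    linarith
  · right
    have := y_pos i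
    linarith
  · rcases lt_trichotomy i j with hij | hij | hij
    · right; exact y_half hij
    · subst hij; exact absurd rfl h
    · left; exact y_half hij

theorem M_compact : IsCompact M := by
  have h1 : Continuous pa := by
    unfold pa
    fun_prop
  have h2 : Continuous pb := by
    unfold pb
    fun_prop
  exact ((T_compact.image h1).union (T_compact.image h2)).union (Set.toFinite _).isCompact

theorem dist_sq (p q : E) : dist p q ^ 2 = (p 0 - q 0) ^ 2 + (p 1 - q 1) ^ 2 + (p 2 - q 2) ^ 2 := by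
  rw [EuclideanSpace.dist_eq, Real.sq_sqrt (by positivity), Fin.sum_univ_three]
  simp only [Real.dist_eq, sq_abs]

theorem lt_one_iff (p q : E) :
    dist p q < 1 ↔ (p 0 - q 0) ^ 2 + (p 1 - q 1) ^ 2 + (p 2 - q 2) ^ 2 < 1 := by
  rw [← dist_sq]
  constructor
  · intro h
    have := dist_nonneg (x := p) (y := q)
    nlinarith
  · intro h
    have := dist_nonneg (x := p) (y := q)
    nlinarith

@[simp] theorem pa0 (t : ℝ) : pa t 0 = -(1 / 2) + t ^ 2 / 32 := rfl
@[simp] theorem pa1 (t : ℝ) : pa t 1 = t := rfl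
@[simp] theorem pa2 (t : ℝ) : pa t 2 = 0 := rfl
@[simp] theorem pb0 (t : ℝ) : pb t 0 = 1 / 2 - t ^ 2 / 32 := rfl
@[simp] theorem pb1 (t : ℝ) : pb t 1 = t := rfl
@[simp] theorem pb2 (t : ℝ) : pb t 2 = 0 := rfl
@[simp] theorem pc0 : pc 0 = 0 := rfl
@[simp] theorem pc1 : pc 1 = 0 := rfl
@[simp] theorem pc2 : pc 2 = 7 / 8 := rfl
@[simp] theorem pd0 : pd 0 = 0 := rfl
@[simp] theorem pd1 : pd 1 = 0 := rfl
@[simp] theorem pd2 : pd 2 = -(1 / 10) := rfl

theorem ab_adj {t u : ℝ} (ht : t ∈ T) (hu : u ∈ T) (h : dist (pa t) (pb u) < 1) : t = u := by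
  rw [lt_one_iff] at h
  simp only [pa0, pa1, pa2, pb0, pb1, pb2] at h
  by_contra hne
  obtain ⟨t0, t1⟩ := T_bd ht
  obtain ⟨u0, u1⟩ := T_bd hu
  rcases T_sep ht hu hne with h1 | h1
  · nlinarith [sq_nonneg (t ^ 2 + u ^ 2), mul_nonneg t0 u0, mul_nonneg t0 (sub_nonneg.2 h1),
      mul_nonneg u0 (sub_nonneg.2 h1)]
  · nlinarith [sq_nonneg (t ^ 2 + u ^ 2), mul_nonneg t0 u0, mul_nonneg t0 (sub_nonneg.2 h1),
      mul_nonneg u0 (sub_nonneg.2 h1)]

theorem ac_adj {t : ℝ} (ht : t ∈ T) : ¬ dist (pa t) pc < 1 := by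
  rw [lt_one_iff]
  simp only [pa0, pa1, pa2, pc0, pc1, pc2]
  obtain ⟨t0, t1⟩ := T_bd ht
  intro h
  nlinarith [sq_nonneg (t ^ 2)]

theorem bc_adj {t : ℝ} (ht : t ∈ T) : ¬ dist (pb t) pc < 1 := by
  rw [lt_one_iff]
  simp only [pb0, pb1, pb2, pc0, pc1, pc2]
  obtain ⟨t0, t1⟩ := T_bd ht
  intro h
  nlinarith [sq_nonneg (t ^ 2)]

theorem M_cases {p : E} (hp : p ∈ M) :
    (∃ t ∈ T, p = pa t) ∨ (∃ t ∈ T, p = pb t) ∨ p = pc ∨ p = pd := by
  rcases hp with (⟨t, ht, rfl⟩ | ⟨t, ht, rfl⟩) | hp | hp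
  · exact Or.inl ⟨t, ht, rfl⟩
  · exact Or.inr (Or.inl ⟨t, ht, rfl⟩)
  · exact Or.inr (Or.inr (Or.inl hp))
  · exact Or.inr (Or.inr (Or.inr hp))

theorem convex_lin (α β γ c : ℝ) : Convex ℝ {q : E | α * q 0 + β * q 1 + γ * q 2 ≤ c} := by
  intro p hp q hq a b ha hb hab
  simp only [mem_ofPred_eq, PiLp.add_apply, PiLp.smul_apply, smul_eq_mul] at hp hq ⊢
  have : α * (a * p 0 + b * q 0) + β * (a * p 1 + b * q 1) + γ * (a * p 2 + b * q 2) =
      a * (α * p 0 + β * p 1 + γ * p 2) + b * (α * q 0 + β * q 1 + γ * q 2) := by ring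
  rw [this]
  have h1 := mul_le_mul_of_nonneg_left hp ha
  have h2 := mul_le_mul_of_nonneg_left hq hb
  have h3 : a * c + b * c = c := by rw [← add_mul, hab, one_mul]
  linarith

theorem convex_eq (α β γ c : ℝ) : Convex ℝ {q : E | α * q 0 + β * q 1 + γ * q 2 = c} := by
  have : {q : E | α * q 0 + β * q 1 + γ * q 2 = c} =
      {q : E | α * q 0 + β * q 1 + γ * q 2 ≤ c} ∩
        {q : E | (-α) * q 0 + (-β) * q 1 + (-γ) * q 2 ≤ -c} := by
    ext q
    simp only [mem_ofPred_eq, mem_inter_iff]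
    constructor
    · intro h
      constructor <;> linarith
    · rintro ⟨h1, h2⟩
      linarith
  rw [this]
  exact (convex_lin _ _ _ _).inter (convex_lin _ _ _ _)

theorem coord_le (q : E) (i : Fin 3) : |q i| ≤ ‖q‖ := by
  simpa using PiLp.norm_apply_le q i

/-- Near the origin the shadow is contained in the cone over `{Y ∈ T}`. -/
theorem near {q : E} (hq : q ∈ shadow M 1) (hn : ‖q‖ < 1 / 20) :
    ∃ t ∈ T, q 1 * (1 / 10) = t * (1 / 10 + q 2) := by
  simp only [shadow, mem_iUnion] at hq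
  obtain ⟨σ, ⟨_, hfin, hsub, hdiam⟩, hqσ⟩ := hq
  have hadj : ∀ p ∈ σ, ∀ p' ∈ σ, dist p p' < 1 := fun p hp p' hp' =>
    (dist_le_diam_of_mem hfin.isBounded hp hp').trans_lt hdiam
  have c0 := (coord_le q 0).trans_lt hn
  have c2 := (coord_le q 2).trans_lt hn
  rw [abs_lt] at c0 c2
  by_cases hc : pc ∈ σ
  · refine ⟨0, Or.inl rfl, ?_⟩
    have h1 : σ ⊆ {q : E | 0 * q 0 + 1 * q 1 + 0 * q 2 = 0} := by
      intro p hp
      rcases M_cases (hsub hp) with ⟨t, ht, rfl⟩ | ⟨t, ht, rfl⟩ | rfl | rfl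
      · exact absurd (hadj _ hp _ hc) (ac_adj ht)
      · exact absurd (hadj _ hp _ hc) (bc_adj ht)
      · simp
      · simp
    have h2 := convexHull_min h1 (convex_eq _ _ _ _) hqσ
    simp only [mem_ofPred_eq] at h2
    linarith
  · by_cases hA : ∃ t ∈ T, pa t ∈ σ
    · by_cases hB : ∃ t ∈ T, pb t ∈ σ
      · obtain ⟨t, ht, hta⟩ := hA
        obtain ⟨u, hu, hub⟩ := hB
        have htu := ab_adj ht hu (hadj _ hta _ hub)
        subst htu
        refine ⟨t, ht, ?_⟩
        have h1 : σ ⊆ {q : E | 0 * q 0 + (1 / 10) * q 1 + (-t) * q 2 = t * (1 / 10)} := by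
          intro p hp
          rcases M_cases (hsub hp) with ⟨v, hv, rfl⟩ | ⟨v, hv, rfl⟩ | rfl | rfl
          · have := ab_adj hv ht (hadj _ hp _ hub)
            subst this
            simp only [mem_ofPred_eq, pa0, pa1, pa2]
            ring
          · have := ab_adj ht hv (hadj _ hta _ hp)
            subst this
            simp only [mem_ofPred_eq, pb0, pb1, pb2]
            ring
          · exact absurd hp hc
          · simp only [mem_ofPred_eq, pd0, pd1, pd2]
            ring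
        have h2 := convexHull_min h1 (convex_eq _ _ _ _) hqσ
        simp only [mem_ofPred_eq] at h2
        linarith
      · exfalso
        have h1 : σ ⊆ {q : E | (2 / 5) * q 0 + 0 * q 1 + 1 * q 2 ≤ -(1 / 10)} := by
          intro p hp
          rcases M_cases (hsub hp) with ⟨v, hv, rfl⟩ | ⟨v, hv, rfl⟩ | rfl | rfl
          · obtain ⟨v0, v1⟩ := T_bd hv
            simp only [mem_ofPred_eq, pa0, pa1, pa2]
            nlinarith
          · exact absurd ⟨v, hv, hp⟩ hB
          · exact absurd hp hc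
          · simp only [mem_ofPred_eq, pd0, pd1, pd2]
            norm_num
        have h2 := convexHull_min h1 (convex_lin _ _ _ _) hqσ
        simp only [mem_ofPred_eq] at h2
        linarith
    · exfalso
      have h1 : σ ⊆ {q : E | (-(2 / 5)) * q 0 + 0 * q 1 + 1 * q 2 ≤ -(1 / 10)} := by
        intro p hp
        rcases M_cases (hsub hp) with ⟨v, hv, rfl⟩ | ⟨v, hv, rfl⟩ | rfl | rfl
        · exact absurd ⟨v, hv, hp⟩ hA
        · obtain ⟨v0, v1⟩ := T_bd hv
          simp only [mem_ofPred_eq, pb0, pb1, pb2]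
          nlinarith
        · exact absurd hp hc
        · simp only [mem_ofPred_eq, pd0, pd1, pd2]
          norm_num
      have h2 := convexHull_min h1 (convex_lin _ _ _ _) hqσ
      simp only [mem_ofPred_eq] at h2
      linarith

/-- The projection from `pd` to the plane `z = 0`, second coordinate. -/
noncomputable def Y (q : E) : ℝ := q 1 * (1 / 10) / max (1 / 10 + q 2) (1 / 20)

theorem Y_cont : Continuous Y := by
  unfold Y
  refine Continuous.div (by fun_prop) (by fun_prop) ?_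
  intro q
  have : (0 : ℝ) < max (1 / 10 + q 2) (1 / 20) := lt_max_of_lt_right (by norm_num)
  exact this.ne'

theorem Y_mem {q : E} (hq : q ∈ shadow M 1) (hn : ‖q‖ < 1 / 20) : Y q ∈ T := by
  obtain ⟨t, ht, h⟩ := near hq hn
  have c2 := (coord_le q 2).trans_lt hn
  rw [abs_lt] at c2
  have : Y q = t := by
    unfold Y
    have h3 : (0 : ℝ) < 1 / 10 + q 2 := by linarith
    rw [h, max_eq_left (by linarith), mul_div_assoc, div_self h3.ne', mul_one]
  rwa [this]

theorem Y_mem_closure {q : E} (hq : q ∈ closure (shadow M 1)) (hn : ‖q‖ < 1 / 20) : Y q ∈ T := by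
  have hcl : IsClosed ({q : E | 1 / 20 ≤ ‖q‖} ∪ Y ⁻¹' T) :=
    (isClosed_le continuous_const continuous_norm).union (T_compact.isClosed.preimage Y_cont)
  have hsub : shadow M 1 ⊆ {q : E | 1 / 20 ≤ ‖q‖} ∪ Y ⁻¹' T := by
    intro q hq
    by_cases h : ‖q‖ < 1 / 20
    · exact Or.inr (Y_mem hq h)
    · exact Or.inl (not_lt.1 h)
  rcases closure_minimal hsub hcl hq with h | h
  · exact absurd hn (not_lt.2 h)
  · exact h

/-- The segment of points `(0, t, 0)`. -/
noncomputable def w (t : ℝ) : E := !₂[0, t, 0]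

theorem w_cont : Continuous w := by
  unfold w
  fun_prop

theorem w_norm (t : ℝ) : ‖w t‖ = |t| := by
  rw [EuclideanSpace.norm_eq, Fin.sum_univ_three]
  simp [w, Real.sqrt_sq_eq_abs]

theorem Y_w (t : ℝ) : Y (w t) = t := by
  unfold Y w
  have h : max ((1 : ℝ) / 10 + 0) (1 / 20) = 1 / 10 := by norm_num
  simp only [Matrix.cons_val_one, Matrix.cons_val_zero, Matrix.cons_val]
  rw [h]
  ring

theorem segment_mem {p q : E} (hp : p ∈ M) (hq : q ∈ M) (h : dist p q < 1) {x : E}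
    (hx : x ∈ segment ℝ p q) : x ∈ shadow M 1 := by
  simp only [shadow, mem_iUnion]
  refine ⟨{p, q}, ⟨⟨p, by simp⟩, Set.toFinite _, ?_, ?_⟩, ?_⟩
  · rintro z (rfl | rfl)
    · exact hp
    · exact hq
  · rw [Metric.diam_pair]
    exact h
  · rw [convexHull_pair]
    exact hx

theorem w_mem {t : ℝ} (ht : t ∈ T) : w t ∈ shadow M 1 := by
  obtain ⟨t0, t1⟩ := T_bd ht
  by_cases h0 : t = 0
  · subst h0
    refine segment_mem (p := pc) (q := pd) (by simp [M]) (by simp [M]) ?_ ?_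
    · rw [lt_one_iff]
      simp only [pc0, pc1, pc2, pd0, pd1, pd2]
      norm_num
    · refine ⟨4 / 39, 35 / 39, by norm_num, by norm_num, by norm_num, ?_⟩
      ext i
      fin_cases i <;> simp [w, pc, pd] <;> norm_num
  · have hpos : 0 < t := lt_of_le_of_ne t0 (Ne.symm h0)
    refine segment_mem (p := pa t) (q := pb t) (Or.inl (Or.inl ⟨t, ht, rfl⟩))
      (Or.inl (Or.inr ⟨t, ht, rfl⟩)) ?_ ?_
    · rw [lt_one_iff]
      simp only [pa0, pa1, pa2, pb0, pb1, pb2]
      have h2 : 0 < t ^ 2 := by positivity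
      have h3 : t ^ 2 ≤ 1 := by nlinarith
      have e : (-(1 / 2) + t ^ 2 / 32 - (1 / 2 - t ^ 2 / 32)) ^ 2 + (t - t) ^ 2 +
          ((0 : ℝ) - 0) ^ 2 = (1 - t ^ 2 / 16) ^ 2 := by ring
      rw [e]
      nlinarith
    · refine ⟨1 / 2, 1 / 2, by norm_num, by norm_num, by norm_num, ?_⟩
      ext i
      fin_cases i <;> simp [w, pa, pb] <;> ring

/-- The metrizable space in which the shadow is closed. -/
def Zs : Set E := {q | q ∈ shadow M 1 ∨ q ∉ closure (shadow M 1)}

/-- The inclusion of the shadow. -/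
def inc (q : shadow M 1) : Zs := ⟨q.1, Or.inl q.2⟩

theorem inc_closedEmbedding : IsClosedEmbedding inc := by
  have hemb : IsEmbedding inc :=
    IsEmbedding.of_comp (by unfold inc; fun_prop) continuous_subtype_val
      (f := inc) (g := ((↑) : Zs → E)) IsEmbedding.subtypeVal
  refine ⟨hemb, ?_⟩
  have : range inc = ((↑) : Zs → E) ⁻¹' closure (shadow M 1) := by
    ext z
    constructor
    · rintro ⟨q, rfl⟩
      exact subset_closure q.2
    · intro hz
      rcases z.2 with h | h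
      · exact ⟨⟨z.1, h⟩, rfl⟩
      · exact absurd hz h
  rw [this]
  exact isClosed_closure.preimage continuous_subtype_val

theorem w_mem_Zs {t : ℝ} (h : |t| < 1 / 20) : w t ∈ Zs := by
  by_cases ht : t ∈ T
  · exact Or.inl (w_mem ht)
  · right
    intro hcl
    apply ht
    have := Y_mem_closure hcl (by rwa [w_norm])
    rwa [Y_w] at this

theorem not_ANR : ¬ IsANR (shadow M 1) := by
  rintro ⟨_, h⟩
  obtain ⟨U, hU, r, hr, hr'⟩ := h Zs inc inc_closedEmbedding
  have w0 : w 0 ∈ shadow M 1 := w_mem (Or.inl rfl)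
  let o : Zs := ⟨w 0, Or.inl w0⟩
  have ho : o = inc ⟨w 0, w0⟩ := rfl
  have hUo : U ∈ 𝓝 o := mem_nhdsSet_iff_forall.1 hU o ⟨⟨w 0, w0⟩, rfl⟩
  have hoU : o ∈ U := mem_of_mem_nhds hUo
  have hro : r ⟨o, hoU⟩ = ⟨w 0, w0⟩ := hr' ⟨w 0, w0⟩ hoU
  -- continuity of `r` at `o`
  have hV : {u : U | ‖((r u : shadow M 1) : E)‖ < 1 / 20} ∈ 𝓝 (⟨o, hoU⟩ : U) := by
    apply IsOpen.mem_nhds
    · exact isOpen_lt (continuous_norm.comp (continuous_subtype_val.comp hr)) continuous_const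
    · simp only [mem_ofPred_eq, hro, w_norm]
      norm_num
  rw [nhds_subtype_eq_comap, mem_comap] at hV
  obtain ⟨V, hV1, hV2⟩ := hV
  have hVU : V ∩ U ∈ 𝓝 o := inter_mem hV1 hUo
  rw [Metric.mem_nhds_iff] at hVU
  obtain ⟨ε, hε, hball⟩ := hVU
  -- choose `i`
  obtain ⟨i, hi⟩ : ∃ i, y i < min ε (1 / 20) := by
    have := (tendsto_order.1 y_tendsto).2 (min ε (1 / 20)) (lt_min hε (by norm_num))
    exact this.exists
  have hiε := hi.trans_le (min_le_left _ _)
  have hi20 := hi.trans_le (min_le_right _ _)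
  have hy := y_pos i
  have habs : ∀ t : Icc (0 : ℝ) (y i), |t.1| < 1 / 20 := by
    intro t
    rw [abs_of_nonneg t.2.1]
    exact t.2.2.trans_lt hi20
  have hin : ∀ t : Icc (0 : ℝ) (y i), (⟨w t, w_mem_Zs (habs t)⟩ : Zs) ∈ V ∩ U := by
    intro t
    apply hball
    rw [mem_ball, Subtype.dist_eq]
    change dist (w t) (w 0) < ε
    have : w 0 = 0 := by
      ext j
      fin_cases j <;> simp [w]
    rw [this, dist_zero_right, w_norm, abs_of_nonneg t.2.1]
    exact t.2.2.trans_lt hiε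
  let Γ : Icc (0 : ℝ) (y i) → U := fun t => ⟨⟨w t, w_mem_Zs (habs t)⟩, (hin t).2⟩
  have hΓ : Continuous Γ :=
    Continuous.subtype_mk (Continuous.subtype_mk (w_cont.comp continuous_subtype_val) _) _
  let φ : Icc (0 : ℝ) (y i) → ℝ := fun t => Y (r (Γ t) : shadow M 1)
  have hφ : Continuous φ := Y_cont.comp (continuous_subtype_val.comp (hr.comp hΓ))
  have hφT : ∀ t, φ t ∈ T := by
    intro t
    apply Y_mem (r (Γ t)).2
    have : Γ t ∈ Subtype.val ⁻¹' V := (hin t).1
    exact hV2 this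
  have hφw : ∀ t : Icc (0 : ℝ) (y i), t.1 ∈ T → φ t = t := by
    intro t ht
    have h1 : Γ t = ⟨inc ⟨w t, w_mem ht⟩, (hin t).2⟩ := rfl
    have h2 : r (Γ t) = ⟨w t, w_mem ht⟩ := by
      rw [h1]
      exact hr' _ _
    change Y (r (Γ t) : shadow M 1) = t
    rw [h2]
    exact Y_w t
  have e0 : φ ⟨0, le_rfl, hy.le⟩ = 0 := hφw _ (Or.inl rfl)
  have e1 : φ ⟨y i, hy.le, le_rfl⟩ = y i := hφw _ (Or.inr ⟨i, rfl⟩)
  have hpre : PreconnectedSpace (Icc (0 : ℝ) (y i)) := Subtype.preconnectedSpace isPreconnected_Icc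
  have hivt := intermediate_value_univ (⟨0, le_rfl, hy.le⟩ : Icc (0 : ℝ) (y i))
    ⟨y i, hy.le, le_rfl⟩ hφ
  rw [e0, e1] at hivt
  obtain ⟨t, ht⟩ := hivt (show (3 / 4 * y i) ∈ Icc 0 (y i) by constructor <;> linarith)
  have hT := hφT t
  rw [ht] at hT
  have hne : 3 / 4 * y i ≠ y i := by
    intro h
    linarith
  rcases T_sep hT (Or.inr ⟨i, rfl⟩) hne with h | h <;> linarith

/-- There are `N`, a nonempty compact set `M ⊆ ℝ^N` and `β > 0` such that the shadow of the
Vietoris–Rips complex `R_β(M)` is not an ANR. -/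
theorem result : ∃ (N : ℕ) (M : Set (EuclideanSpace ℝ (Fin N))) (β : ℝ),
    1 ≤ N ∧ M.Nonempty ∧ IsCompact M ∧ 0 < β ∧ ¬ IsANR (shadow M β) :=
  ⟨3, M, 1, by norm_num, ⟨pc, by simp [M]⟩, M_compact, one_pos, not_ANR⟩

end Pool.Agent.Results.MP_68dc86_gt.ShadowNotANR
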